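import Pool.Agent.P.MP_f1a348_lc.PG.Prog

/-!
The program that finds the largest maximally shrunk subspace of a space of square matrices.
-/

namespace Pool.Agent.P.MP_f1a348_lc.NC

open Pool.Agent.P.MP_f1a348_lc.PG

/-- matrix times vector -/
def mv (c : Cx) (w : U) (a x : V) : V :=
  tab c w fun i => sm w fun j => a.getD (i * w.length + j) 0 * x.getD j 0
/-- the matrix of a map -/
def mk (c : Cx) (w : U) (f : V → V) : V :=
  tab c (mulU w w) fun i => (f (unit c w (i % w.length))).getD (i / w.length) 0
/-- the size of the blow-up -/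
def uD (u : U) : U := () :: mulU u (mulU (mulU u u) u)
def uW (u : U) : U := mulU (uD u) u
def uM (u : U) : U := mulU (uW u) (uW u)
def cp (c : Cx) (u : U) (x : V) (j : ℕ) : V := nv c u (x.drop (j * u.length))
def tnP (c : Cx) (u : U) (y v : V) : V :=
  tab c (uW u) fun i => v.getD (i / u.length) 0 * y.getD (i % u.length) 0
def pinv (c : Cx) (w : U) (a : V) : V :=
  (aff c (mulU w w) (preAll c w (() :: mulU w w) (units c (() :: mulU w w)) (units c w)
    (fun t y => axpy c w (ng c (y.getD 0 0)) (mv c w a t) (mv c w a (mv c w y.tail (mv c w a t))))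
    [])).getD []

/-- an element of the blow-up and a list of atoms -/
abbrev St : Type := V × List (V × V × ℕ)

def ulP (c : Cx) (u : U) (s : St) : List V := s.2.map fun r => cp c u r.2.1 r.2.2
def tsP (c : Cx) (u : U) (s : St) : List V :=
  s.2.flatMap fun r => (units c u).map fun y => r.2.2 :: y
def vbP (c : Cx) (u : U) (s : St) : List V :=
  preAll c u (uD u) (units c (uD u)) (tsP c u s)
    (fun t v => cp c u (mv c (uW u) (pinv c (uW u) s.1) (tnP c u t.tail v)) (t.getD 0 0)) []
def zP (c : Cx) (u : U) (b v : V) (j : ℕ) (x : V) : V := tnP c u (mv c u b (cp c u x j)) v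
def mvsP (c : Cx) (u : U) (L : List V) (s : St) : List (V × V × V) :=
  s.2.flatMap fun r => L.flatMap fun b => ([] :: vbP c u s).map fun v =>
    (axpy c (uM u) 1 r.1 (mk c (uW u) (zP c u b v r.2.2)), r.2.1, zP c u b v r.2.2 r.2.1)
def augP (c : Cx) (u : U) (L : List V) (s : St) : Option (V × V × V) :=
  (mvsP c u L s).find? fun q => !mem c (uW u) ((units c (uW u)).map (mv c (uW u) s.1)) q.2.2
def candP (c : Cx) (u : U) (L : List V) (s : St) : List (V × V) :=
  (preim c (uW u) (uW u) (units c (uW u)) (mv c (uW u) s.1) []).map (fun x => ([], nv c (uW u) x)) ++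
    (mvsP c u L s).map fun q =>
      (q.1, vsub c (uW u) q.2.1 (mv c (uW u) (pinv c (uW u) s.1) q.2.2))
def newP (c : Cx) (u : U) (L : List V) (s : St) : Option (V × V × ℕ) :=
  ((candP c u L s).flatMap fun r => (ran (uD u)).map fun j => (r.1, r.2, j)).find? fun r =>
    !mem c u (ulP c u s) (cp c u r.2.1 r.2.2)
def stepP (c : Cx) (u : U) (L : List V) (s : St) : St :=
  (augP c u L s).elim ((newP c u L s).elim s fun r => (s.1, r :: s.2)) fun q =>
    (axpy c (uM u) 1 s.1 q.1, [])
def runP (c : Cx) (u : U) (L : List V) : St :=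
  (mulU (() :: uW u) (() :: u)).foldl (fun s _ => stepP c u L s) ([], [])
def dfQ (c : Cx) (u : U) (L K : List V) : ℕ :=
  rk c u K - rk c u (L.flatMap fun b => K.map (mv c u b))
/-- the defect -/
def dfP (c : Cx) (u : U) (L : List V) : ℕ := dfQ c u L (ulP c u (runP c u L))
/-- the image of the largest maximally shrunk subspace -/
def rmP (c : Cx) (u : U) (L : List V) : List V :=
  (allV c u).filter fun y =>
    dfP c u (L ++ (ran u).map fun i => mk c u fun x => axpy c u (x.getD i 0) y []) == dfP c u L
/-- the largest maximally shrunk subspace -/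
def umP (c : Cx) (u : U) (L : List V) : List V := preAll c u u (units c u) L (mv c u) (rmP c u L)

end Pool.Agent.P.MP_f1a348_lc.NC
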