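import Pool.Agent.P.MP_f1a348_lc.NC.Math
import Pool.Agent.P.MP_f1a348_lc.NC.Prog
import Pool.Agent.P.MP_f1a348_lc.PG.PLin

/-!
Correctness of the program that finds the largest maximally shrunk subspace.
-/

namespace Pool.Agent.P.MP_f1a348_lc.NC

open Module Pool.Agent.P.MP_f1a348_lc.PG

variable {p : ℕ} [Fact p.Prime] {c : Cx} {X : Type} [AddCommGroup X] [Module (ZMod p) X]
  {δ : Dcd p X}

noncomputable section

/-- a section of a decoder -/
def sec (δ : Dcd p X) : X →ₗ[ZMod p] Sq p := Classical.epsilon fun σ => δ ∘ₗ σ = LinearMap.id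

def mq (M : ℕ) (v : Sq p) : Sq p →ₗ[ZMod p] Sq p where
  toFun x := fun i => ∑ j ∈ Finset.range M, v (i * M + j) * x j
  map_add' x y := by funext i; simp [mul_add, Finset.sum_add_distrib]
  map_smul' a x := by funext i; simp [Finset.mul_sum, mul_left_comm]

/-- matrices read as linear maps -/
def lin (δ : Dcd p X) (M : ℕ) : Dcd p (X →ₗ[ZMod p] X) where
  toFun v := δ ∘ₗ mq M v ∘ₗ sec δ
  map_add' v w := by
    ext x
    simp only [LinearMap.comp_apply, LinearMap.add_apply, ← map_add]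
    congr 1; funext i; simp [mq, add_mul, Finset.sum_add_distrib]
  map_smul' a v := by
    ext x
    simp only [LinearMap.comp_apply, LinearMap.smul_apply, RingHom.id_apply, ← map_smul]
    congr 1; funext i; simp [mq, Finset.mul_sum, mul_assoc]

/-- tuples -/
def pw (δ : Dcd p X) (d m : ℕ) : Dcd p (Fin d → X) :=
  LinearMap.pi fun i => δ ∘ₗ shf p (i.val * m)

def gv (p d : ℕ) : Dcd p (Fin d → ZMod p) := LinearMap.pi fun i => LinearMap.proj i.val

/-- the maps given by a list of matrices -/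
def SL (δ : Dcd p X) (m : ℕ) (L : List V) : Set (X →ₗ[ZMod p] X) := dv (lin δ m) '' {a | a ∈ L}

end

/-- `δ` is a coordinate system of dimension `m` -/
structure Co (δ : Dcd p X) (m : ℕ) : Prop where
  dec : Dec δ m
  surj : Function.Surjective δ

variable {m : ℕ}

theorem mem_SL {L : List V} {b : V} (hb : b ∈ L) : dv (lin δ m) b ∈ SL δ m L := ⟨b, hb, rfl⟩

theorem Co.sec (h : Co δ m) (x : X) : δ (sec δ x) = x :=
  LinearMap.congr_fun (Classical.epsilon_spec (p := fun σ => δ ∘ₗ σ = LinearMap.id)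
    (δ.exists_rightInverse_of_surjective (LinearMap.range_eq_top.2 h.surj))) x

theorem Co.lin_apply (h : Co δ m) (v x : Sq p) : lin δ m v (δ x) = δ (mq m v x) := by
  refine congrArg δ (funext fun i => ?_)
  show ∑ j ∈ Finset.range m, v (i * m + j) * NC.sec δ (δ x) j =
    ∑ j ∈ Finset.range m, v (i * m + j) * x j
  refine Finset.sum_congr rfl fun j hj => ?_
  rw [h.dec.eq_iff.1 (h.sec (δ x)) j (Finset.mem_range.1 hj)]

theorem mq_single (v : Sq p) {j : ℕ} (hj : j < m) (i : ℕ) :
    mq m v (Pi.single j 1) i = v (i * m + j) := by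
  show ∑ l ∈ Finset.range m, v (i * m + l) * (Pi.single j 1 : Sq p) l = _
  rw [Finset.sum_eq_single j (fun l _ e => by rw [Pi.single_eq_of_ne e, mul_zero])
    fun e => absurd (Finset.mem_range.2 hj) e, Pi.single_eq_same, mul_one]

theorem Co.ext {Y : Type} [AddCommGroup Y] [Module (ZMod p) Y] (h : Co δ m)
    {F G : X →ₗ[ZMod p] Y} (e : ∀ j < m, F (δ (Pi.single j 1)) = G (δ (Pi.single j 1))) :
    F = G := by
  ext x
  obtain ⟨v, rfl⟩ := h.surj x
  have e1 : δ v = δ (∑ i ∈ Finset.range m, v i • Pi.single i 1) := h.dec.congr fun j hj => by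
    rw [Finset.sum_apply, Finset.sum_eq_single j (fun i _ e => by simp [Pi.single_eq_of_ne' e])
      (fun e => absurd (Finset.mem_range.2 hj) e)]
    simp
  rw [e1, map_sum, map_sum, map_sum]
  exact Finset.sum_congr rfl fun i hi => by
    rw [map_smul, map_smul, map_smul, e i (Finset.mem_range.1 hi)]

theorem enc_lt {d i j : ℕ} (hi : i < d) (hj : j < m) : i * m + j < d * m := by nlinarith

theorem div_enc' {i j : ℕ} (hj : j < m) : (i * m + j) / m = i := by
  rw [Nat.add_comm, Nat.add_mul_div_right _ _ (by omega), Nat.div_eq_of_lt hj, Nat.zero_add]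

theorem mod_enc' {i j : ℕ} (hj : j < m) : (i * m + j) % m = j := by
  rw [Nat.add_comm, Nat.add_mul_mod_self_right, Nat.mod_eq_of_lt hj]

theorem ex_enc {d i : ℕ} (h : i < d * m) : ∃ a < d, ∃ b < m, i = a * m + b :=
  have hm : 0 < m := Nat.pos_of_ne_zero fun e => by simp [e] at h
  ⟨i / m, Nat.div_lt_of_lt_mul (by rwa [Nat.mul_comm]), i % m, Nat.mod_lt _ hm,
    (Nat.div_add_mod' _ _).symm⟩

theorem Co.lin (h : Co δ m) : Co (lin δ m) (m * m) where
  dec v := by
    refine ⟨fun e i hi => ?_, fun e => h.ext fun j hj => ?_⟩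
    · obtain ⟨a, ha, b, hb, rfl⟩ := ex_enc hi
      have := h.lin_apply v (Pi.single b 1)
      rw [e] at this
      rw [← mq_single v hb, (h.dec _).1 this.symm a ha]
    · rw [h.lin_apply, LinearMap.zero_apply, h.dec]
      intro i hi
      rw [mq_single v hj, e _ (enc_lt hi hj)]
  surj T := ⟨fun i => NC.sec δ (T (δ (Pi.single (i % m) 1))) (i / m), h.ext fun j hj => by
    rw [h.lin_apply, ← h.sec (T _)]
    exact congrArg δ (funext fun i => by rw [mq_single _ hj, div_enc' hj, mod_enc' hj])⟩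

theorem Co.pw (h : Co δ m) (d : ℕ) : Co (pw δ d m) (d * m) where
  dec v := by
    refine ⟨fun e i hi => ?_, fun e => funext fun i => (h.dec _).2 fun j hj => e _ (enc_lt i.2 hj)⟩
    obtain ⟨a, ha, b, hb, rfl⟩ := ex_enc hi
    exact (h.dec _).1 (congrFun e ⟨a, ha⟩) b hb
  surj x := ⟨fun i => if e : i / m < d then NC.sec δ (x ⟨_, e⟩) (i % m) else 0, funext fun i => by
    rw [← h.sec (x i)]
    refine h.dec.congr fun j hj => ?_
    simp only [shf_apply, div_enc' hj, mod_enc' hj, dif_pos i.2]⟩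

theorem co_gv (d : ℕ) : Co (gv p d) d where
  dec _ := ⟨fun e i hi => congrFun e ⟨i, hi⟩, fun e => funext fun i => e i i.2⟩
  surj x := ⟨fun i => if e : i < d then x ⟨i, e⟩ else 0, funext fun i => dif_pos i.2⟩

theorem Co.rank (h : Co δ m) : Module.Finite (ZMod p) X ∧ finrank (ZMod p) X = m := by
  have e : (gv p m ∘ₗ NC.sec δ) ∘ₗ (δ ∘ₗ NC.sec (gv p m)) = LinearMap.id := by
    refine LinearMap.ext fun x => ?_
    rw [← (co_gv m).sec (LinearMap.id x)]
    exact (co_gv m).dec.congr (h.dec.eq_iff.1 (h.sec _))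
  have e' : (δ ∘ₗ NC.sec (gv p m)) ∘ₗ (gv p m ∘ₗ NC.sec δ) = LinearMap.id := by
    refine LinearMap.ext fun x => ?_
    rw [← h.sec (LinearMap.id x)]
    exact h.dec.congr ((co_gv m).dec.eq_iff.1 ((co_gv m).sec _))
  have q : X ≃ₗ[ZMod p] (Fin m → ZMod p) := LinearEquiv.ofLinearMap _ _ e e'
  exact ⟨Module.Finite.equiv q.symm, by rw [q.finrank_eq]; simp⟩

variable {u : U}

theorem dv_mv (hp : pp c = p) (h : Co δ u.length) (a x : V) :
    dv δ (mv c u a x) = dv (lin δ u.length) a (dv δ x) := by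
  rw [mv, dv_tab hp h.dec, dv, dv, h.lin_apply]
  refine congrArg δ (funext fun i => ?_)
  rw [cast_sm]
  exact Finset.sum_congr rfl fun j _ => Nat.cast_mul _ _

theorem dv_mk (hp : pp c = p) (h : Co δ u.length) {f : V → V} (F : X →ₗ[ZMod p] X)
    (hf : ∀ x, dv δ (f x) = F (dv δ x)) : dv (lin δ u.length) (mk c u f) = F := by
  rw [mk, dv_tab hp (by rw [length_mulU]; exact h.lin.dec)]
  refine h.ext fun j hj => ?_
  rw [h.lin_apply, ← dv_unit hp h.dec, ← hf]
  exact congrArg δ (funext fun i => by rw [mq_single _ hj, div_enc' hj, mod_enc' hj]; rfl)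

theorem ex_unit (hp : pp c = p) (h : Co δ u.length) {j : ℕ} (hj : j < u.length) :
    ∃ t ∈ units c u, dv δ t = δ (Pi.single j 1) :=
  ⟨_, List.mem_map_of_mem (mem_ran.2 hj), dv_unit hp h.dec j⟩

theorem sp_top (hp : pp c = p) (h : Co δ u.length) : sp δ (units c u) = ⊤ :=
  sp_units_top hp h.dec h.surj

theorem pinv_spec (hp : pp c = p) (h : Co δ u.length) (a : V) (x : X) :
    dv (lin δ u.length) a (dv (lin δ u.length) (pinv c u a) (dv (lin δ u.length) a x)) =
      dv (lin δ u.length) a x := by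
  have hl : Dec (lin δ u.length) (mulU u u).length := by rw [length_mulU]; exact h.lin.dec
  set A := dv (lin δ u.length) a with hA
  let F : V → (ZMod p × (X →ₗ[ZMod p] X)) →ₗ[ZMod p] X := fun t =>
    A ∘ₗ LinearMap.applyₗ (A (dv δ t)) ∘ₗ LinearMap.snd _ _ _ -
      (LinearMap.fst _ _ _).smulRight (A (dv δ t))
  have key : ∀ y, y ∈ sp (pl (lin δ u.length)) (preAll c u (() :: mulU u u)
      (units c (() :: mulU u u)) (units c u) (fun t y => axpy c u (ng c (y.getD 0 0)) (mv c u a t)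
        (mv c u a (mv c u y.tail (mv c u a t)))) []) ↔ ∀ t ∈ units c u, F t y = 0 := fun y => by
    rw [mem_preAll hp h.dec hl.pl' _ F, sp_units_top hp hl.pl' (pl_surj h.lin.surj), sp_nil]
    · simp
    · intro t _ y
      rw [dv_axpy hp h.dec, cast_ng hp, dv_mv hp h, dv_mv hp h, dv_mv hp h, dv_mv hp h, dv_pl,
        neg_smul, neg_add_eq_sub]
      rfl
  have := h.rank.1
  obtain ⟨P, hP⟩ := exists_pinv A
  have a1 := (key _).1 (aff_getD hp hl ((key (1, P)).2 fun t _ => by simp [F, hP]))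
  refine LinearMap.congr_fun (h.ext (F := A ∘ₗ dv (lin δ u.length) (pinv c u a) ∘ₗ A) (G := A)
    fun j hj => ?_) x
  obtain ⟨t, ht, e⟩ := ex_unit hp h hj
  have a2 := a1 t ht
  simp only [F, LinearMap.sub_apply, LinearMap.smulRight_apply, LinearMap.fst_apply, one_smul,
    sub_eq_zero] at a2
  rw [← e]
  exact a2

/-- the decoder of the blow-up -/
noncomputable abbrev dW (δ : Dcd p X) (u : U) : Dcd p (Fin (uD u).length → X) :=
  pw δ (uD u).length u.length

noncomputable abbrev dM (δ : Dcd p X) (u : U) :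
    Dcd p ((Fin (uD u).length → X) →ₗ[ZMod p] (Fin (uD u).length → X)) :=
  lin (dW δ u) (uW u).length

theorem Co.w (h : Co δ u.length) : Co (dW δ u) (uW u).length := by
  rw [uW, length_mulU]; exact h.pw _

theorem Co.decM (h : Co δ u.length) : Dec (dM δ u) (uM u).length := by
  rw [uM, length_mulU]; exact h.w.lin.dec

theorem dv_cp (hp : pp c = p) (h : Co δ u.length) (x : V) (j : Fin (uD u).length) :
    dv δ (cp c u x j.val) = dv (dW δ u) x j := by
  rw [cp, dv_nv hp h.dec, dv, tv_drop]; rfl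

theorem dv_tn (hp : pp c = p) (h : Co δ u.length) (y v : V) :
    dv (dW δ u) (tnP c u y v) = tns (dv δ y) (dv (gv p (uD u).length) v) := by
  rw [tnP, dv_tab hp h.w.dec]
  funext i
  rw [tns_apply, dv, dv, ← map_smul]
  refine h.dec.congr fun j hj => ?_
  simp only [shf_apply, div_enc' hj, mod_enc' hj, Nat.cast_mul]
  rfl

theorem dv_z (hp : pp c = p) (h : Co δ u.length) (b v : V) (j : Fin (uD u).length) (x : V) :
    dv (dW δ u) (zP c u b v j.val x) =
      tns (dv (lin δ u.length) b (dv (dW δ u) x j)) (dv (gv p (uD u).length) v) := by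
  rw [zP, dv_tn hp h, dv_mv hp h, dv_cp hp h]

/-- the places of the atoms -/
def JJ (u : U) (s : St) : Set (Fin (uD u).length) := {j | ∃ r ∈ s.2, r.2.2 = j.val}

structure Inv (δ : Dcd p X) (c : Cx) (u : U) (L : List V) (s : St) : Prop where
  blw : Blw (SL δ u.length L) (dv (dM δ u) s.1)
  lt : ∀ r ∈ s.2, r.2.2 < (uD u).length
  rc : ∀ r ∈ s.2, Rec (SL δ u.length L) (dv (dM δ u) s.1) (dv (dM δ u) (pinv c (uW u) s.1))
    (JJ u s) (dv (dM δ u) r.1) (dv (dW δ u) r.2.1)
  len : s.2.length ≤ finrank (ZMod p) (sp δ (ulP c u s))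

variable {L : List V} {s : St}

theorem vb_spec (hp : pp c = p) (h : Co δ u.length) (hs : ∀ r ∈ s.2, r.2.2 < (uD u).length) :
    (∀ v ∈ sp (gv p (uD u).length) (vbP c u s), ∀ y, ∀ i ∈ JJ u s,
      dv (dM δ u) (pinv c (uW u) s.1) (tns y v) i = 0) ∧
    (uD u).length ≤ finrank (ZMod p) (sp (gv p (uD u).length) (vbP c u s)) +
      s.2.length * u.length * u.length := by
  have := h.rank.1
  let F : V → (Fin (uD u).length → ZMod p) →ₗ[ZMod p] X := fun t =>
    LinearMap.proj (R := ZMod p) (φ := fun _ => X)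
      (⟨t.getD 0 0 % (uD u).length, Nat.mod_lt _ (Nat.succ_pos _)⟩ : Fin (uD u).length) ∘ₗ
      dv (dM δ u) (pinv c (uW u) s.1) ∘ₗ tns (dv δ t.tail)
  have b := (preAll_bas hp h.dec (co_gv (p := p) (uD u).length).dec (units c (uD u))
    (ts := tsP c u s) (f := fun t v =>
      cp c u (mv c (uW u) (pinv c (uW u) s.1) (tnP c u t.tail v)) (t.getD 0 0)) F
    (fun t ht x => by
      obtain ⟨r, hr, ht⟩ := List.mem_flatMap.1 ht
      obtain ⟨y, -, rfl⟩ := List.mem_map.1 ht
      refine (dv_cp hp h _ ⟨r.2.2, hs r hr⟩).trans ?_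
      rw [dv_mv hp h.w, dv_tn hp h]
      exact congrArg _ (Fin.ext (Nat.mod_eq_of_lt (hs r hr)).symm)) []).sp
  rw [sp_top hp (co_gv _), top_inf_eq, sp_nil] at b
  simp only [Submodule.comap_bot] at b
  rw [vbP, b]
  refine ⟨fun v hv y i ⟨r, hr, e⟩ => ?_, ?_⟩
  · refine LinearMap.congr_fun (h.ext (F := LinearMap.proj (R := ZMod p) (φ := fun _ => X) i ∘ₗ
      dv (dM δ u) (pinv c (uW u) s.1) ∘ₗ tns.flip v) (G := 0) fun j hj => ?_) y
    obtain ⟨t, ht, e2⟩ := ex_unit hp h hj
    simp only [Submodule.mem_iInf] at hv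
    have a := hv (r.2.2 :: t) (List.mem_flatMap.2 ⟨r, hr, List.mem_map_of_mem ht⟩)
    have e3 : i = ⟨r.2.2 % (uD u).length, Nat.mod_lt _ (Nat.succ_pos _)⟩ :=
      Fin.ext (by rw [← e]; exact (Nat.mod_eq_of_lt (hs r hr)).symm)
    rw [← e2, e3]
    exact a
  · have a := finrank_inf_list (tsP c u s) F
    have e : (tsP c u s).length = s.2.length * u.length := by
      simp [tsP, List.length_flatMap, units]
    rwa [h.rank.2, e, finrank_fin_fun] at a

theorem mvs_spec (hp : pp c = p) (h : Co δ u.length) (hs : ∀ r ∈ s.2, r.2.2 < (uD u).length)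
    {q : V × V × V} (hq : q ∈ mvsP c u L s) : ∃ r ∈ s.2, ∃ b ∈ SL δ u.length L, ∃ v, ∃ j ∈ JJ u s,
      (∀ y, ∀ i ∈ JJ u s, dv (dM δ u) (pinv c (uW u) s.1) (tns y v) i = 0) ∧
      dv (dM δ u) q.1 = dv (dM δ u) r.1 + mvN b v j ∧ q.2.1 = r.2.1 ∧
      dv (dW δ u) q.2.2 = tns (b (dv (dW δ u) r.2.1 j)) v := by
  obtain ⟨r, hr, hq⟩ := List.mem_flatMap.1 hq
  obtain ⟨b, hb, hq⟩ := List.mem_flatMap.1 hq
  obtain ⟨v, hv, rfl⟩ := List.mem_map.1 hq
  refine ⟨r, hr, _, ⟨b, hb, rfl⟩, dv (gv p (uD u).length) v, ⟨r.2.2, hs r hr⟩, ⟨r, hr, rfl⟩, ?_, ?_,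
    rfl, dv_z hp h b v ⟨r.2.2, hs r hr⟩ _⟩
  · rcases List.mem_cons.1 hv with rfl | hv
    · intro y i _; simp
    · exact (vb_spec hp h hs).1 _ (mem_sp hv)
  · rw [dv_axpy hp h.decM, Nat.cast_one, one_smul,
      dv_mk hp h.w (mvN (dv (lin δ u.length) b) (dv (gv p (uD u).length) v) ⟨r.2.2, hs r hr⟩)
        fun x => dv_z hp h b v ⟨r.2.2, hs r hr⟩ x]

theorem sp_cols (hp : pp c = p) (h : Co δ u.length) (a : V) :
    sp δ ((units c u).map (mv c u a)) = LinearMap.range (dv (lin δ u.length) a) := by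
  rw [sp_map (δ := δ) (dv (lin δ u.length) a) fun x _ => dv_mv hp h a x, sp_top hp h,
    Submodule.map_top]

theorem aug_none (hp : pp c = p) (h : Co δ u.length) (e : augP c u L s = none) {q : V × V × V}
    (hq : q ∈ mvsP c u L s) : dv (dW δ u) q.2.2 ∈ LinearMap.range (dv (dM δ u) s.1) := by
  have := List.find?_eq_none.1 e q hq
  rwa [Bool.not_eq_true, Bool.not_eq_false', mem_iff hp h.w.dec, sp_cols hp h.w] at this

theorem sp_ker (hp : pp c = p) (h : Co δ u.length) (a : V) :
    sp δ (preim c u u (units c u) (mv c u a) []) = LinearMap.ker (dv (lin δ u.length) a) := by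
  rw [(preim_bas hp h.dec h.dec (dv (lin δ u.length) a) (fun x _ => dv_mv hp h a x) []).sp,
    sp_top hp h, top_inf_eq, sp_nil, Submodule.comap_bot]

/-- the potential -/
noncomputable def pot (δ : Dcd p X) (u : U) (s : St) : ℕ :=
  finrank (ZMod p) (LinearMap.range (dv (dM δ u) s.1)) * (u.length + 1) + s.2.length

theorem Inv.short (h : Co δ u.length) (hs : Inv δ c u L s) : s.2.length ≤ u.length := by
  have := h.rank.1
  exact hs.len.trans ((Submodule.finrank_le _).trans h.rank.2.le)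

theorem step_spec (hp : pp c = p) (h : Co δ u.length) (hs : Inv δ c u L s) :
    Inv δ c u L (stepP c u L s) ∧ ((augP c u L s = none ∧ newP c u L s = none) ∨
      pot δ u s < pot δ u (stepP c u L s)) := by
  have := h.rank.1
  have hP := pinv_spec hp h.w s.1
  unfold stepP
  cases e : augP c u L s with
  | some q =>
    obtain ⟨r, hr, b, hb, v, j, hj, hv, e1, -, e3⟩ :=
      mvs_spec hp h hs.lt (List.mem_of_find?_eq_some e)
    have a1 := List.find?_some e
    rw [Bool.not_eq_true', ← Bool.not_eq_true, mem_iff hp h.w.dec, sp_cols hp h.w, e3] at a1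
    have a2 := (hs.rc r hr).aug hP hj b hv a1
    have a3 : dv (dM δ u) (axpy c (uM u) 1 s.1 q.1) =
        dv (dM δ u) s.1 + (dv (dM δ u) r.1 + mvN b v j) := by
      rw [dv_axpy hp h.decM, Nat.cast_one, one_smul, e1]
    refine ⟨⟨?_, by simp, by simp, by simp⟩, Or.inr ?_⟩
    · rw [Option.elim_some, a3]
      exact hs.blw.add ((hs.rc r hr).blw.add (blw_mvN hb v j))
    · have a4 := Nat.mul_le_mul_right (u.length + 1) a2
      have a5 := hs.short h
      rw [Option.elim_some, pot, pot, a3, List.length_nil]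
      rw [Nat.succ_mul] at a4
      omega
  | none =>
    cases e' : newP c u L s with
    | none => exact ⟨hs, Or.inl ⟨rfl, rfl⟩⟩
    | some r =>
      have a1 := List.find?_some e'
      rw [Bool.not_eq_true', ← Bool.not_eq_true, mem_iff hp h.dec] at a1
      obtain ⟨r0, h0, a2⟩ := List.mem_flatMap.1 (List.mem_of_find?_eq_some e')
      obtain ⟨j, hj, rfl⟩ := List.mem_map.1 a2
      have sub : JJ u s ⊆ JJ u (s.1, (r0.1, r0.2, j) :: s.2) := fun i ⟨r, hr, e⟩ =>
        ⟨r, List.mem_cons_of_mem _ hr, e⟩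
      refine ⟨⟨hs.blw, fun r hr => ?_, fun r hr => Rec.mono ?_ sub, ?_⟩, Or.inr ?_⟩
      · rcases List.mem_cons.1 hr with rfl | hr
        · exact mem_ran.1 hj
        · exact hs.lt r hr
      · rcases List.mem_cons.1 hr with rfl | hr
        swap
        · exact hs.rc r hr
        rcases List.mem_append.1 h0 with h0 | h0
        · obtain ⟨x, hx, rfl⟩ := List.mem_map.1 h0
          have a3 := mem_sp (δ := dW δ u) hx
          rw [sp_ker hp h.w] at a3
          rw [dv_nil, dv_nv hp h.w.dec]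
          exact rec_zero a3
        · obtain ⟨q, hq, rfl⟩ := List.mem_map.1 h0
          obtain ⟨r, hr, b, hb, v, j, hj, hv, e1, e2, e3⟩ := mvs_spec hp h hs.lt hq
          have a3 := aug_none hp h e hq
          rw [e3] at a3
          rw [e1, dv_vsub hp h.w.dec, dv_mv hp h.w, e2, e3]
          exact (hs.rc r hr).move hP hj hb hv a3
      · have a3 := rank_sup_x a1
        have a4 := hs.len
        rw [Option.elim_none, Option.elim_some, ulP, List.map_cons, List.length_cons,
          sp_cons, sup_comm]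
        exact (Nat.succ_le_succ a4).trans a3.ge
      · exact Nat.add_lt_add_left (Nat.lt_succ_self _) _

theorem term_spec (hp : pp c = p) (h : Co δ u.length) (hs : Inv δ c u L s)
    (e : augP c u L s = none) (e' : newP c u L s = none) :
    IsMx (SL δ u.length L) (sp δ (ulP c u s)) := by
  have := h.rank.1
  have hP := pinv_spec hp h.w s.1
  have cd : ∀ r ∈ candP c u L s, ∀ j, dv (dW δ u) r.2 j ∈ sp δ (ulP c u s) := fun r hr j => by
    have := List.find?_eq_none.1 e' (r.1, r.2, j.val)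
      (List.mem_flatMap.2 ⟨r, hr, List.mem_map_of_mem (mem_ran.2 j.2)⟩)
    rwa [Bool.not_eq_true, Bool.not_eq_false', mem_iff hp h.dec, dv_cp hp h] at this
  refine terminal hs.blw hP _ (sp (gv p (uD u).length) (vbP c u s))
    (s.2.length * u.length * u.length) ?_ ?_ (fun x hx i => ?_) fun w hw v hv => ?_
  · rw [Fintype.card_fin]
    exact (vb_spec hp h hs.lt).2
  · rw [Fintype.card_fin, h.rank.2]
    have := hs.short h
    simp only [uD, List.length_cons, length_mulU]
    exact Nat.lt_succ_of_le (by gcongr)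
  · have a : sp (dW δ u) (preim c (uW u) (uW u) (units c (uW u)) (mv c (uW u) s.1) []) ≤
        (sp δ (ulP c u s)).comap (LinearMap.proj i) := sp_le.2 fun y hy => by
      have := cd _ (List.mem_append_left _ (List.mem_map_of_mem hy)) i
      rwa [dv_nv hp h.w.dec] at this
    rw [sp_ker hp h.w] at a
    exact a hx
  let Z : Submodule (ZMod p) (Fin (uD u).length → X) := LinearMap.range (dv (dM δ u) s.1) ⊓
    (Submodule.pi Set.univ fun _ => sp δ (ulP c u s)).comap (dv (dM δ u) (pinv c (uW u) s.1))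
  suffices a : tns w v ∈ Z from ⟨a.1, fun i => a.2 i trivial⟩
  refine sp_le (W := Z.comap (tns w)).2 (fun v hv => ?_) hv
  refine img_le (W := Z.comap (tns.flip (dv (gv p (uD u).length) v))).2 ?_ hw
  rintro _ ⟨b, hb, rfl⟩ x hx
  refine sp_le (W := (Z.comap (tns.flip (dv (gv p (uD u).length) v))).comap
    (dv (lin δ u.length) b)).2 (fun x hx => ?_) hx
  obtain ⟨r, hr, rfl⟩ := List.mem_map.1 hx
  have mm : ∀ v ∈ [] :: vbP c u s, (axpy c (uM u) 1 r.1 (mk c (uW u) (zP c u b v r.2.2)), r.2.1,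
      zP c u b v r.2.2 r.2.1) ∈ mvsP c u L s := fun v hv =>
    List.mem_flatMap.2 ⟨r, hr, List.mem_flatMap.2 ⟨b, hb, List.mem_map_of_mem hv⟩⟩
  have z1 := dv_z hp h b v ⟨r.2.2, hs.lt r hr⟩ r.2.1
  have z0 := dv_z hp h b [] ⟨r.2.2, hs.lt r hr⟩ r.2.1
  rw [dv_nil, map_zero] at z0
  have a1 := aug_none hp h e (mm v (List.mem_cons_of_mem _ hv))
  have a2 := cd _ (List.mem_append_right _
    (List.mem_map_of_mem (mm v (List.mem_cons_of_mem _ hv))))
  have a3 := cd _ (List.mem_append_right _ (List.mem_map_of_mem (mm [] List.mem_cons_self)))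
  simp only [dv_vsub hp h.w.dec, dv_mv hp h.w] at a2 a3
  rw [z0, map_zero, sub_zero] at a3
  rw [z1] at a1 a2
  rw [dv_cp hp h _ ⟨r.2.2, hs.lt r hr⟩]
  exact ⟨a1, fun i _ => by simpa using Submodule.sub_mem _ (a3 i) (a2 i)⟩

theorem run_spec (hp : pp c = p) (h : Co δ u.length) (L : List V) :
    IsMx (SL δ u.length L) (sp δ (ulP c u (runP c u L))) := by
  have := h.rank.1
  have key : ∀ w : U, Inv δ c u L (w.foldl (fun s _ => stepP c u L s) ([], [])) ∧
      ((augP c u L (w.foldl (fun s _ => stepP c u L s) ([], [])) = none ∧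
        newP c u L (w.foldl (fun s _ => stepP c u L s) ([], [])) = none) ∨
      w.length ≤ pot δ u (w.foldl (fun s _ => stepP c u L s) ([], []))) := fun w => by
    induction w using List.reverseRecOn with
    | nil => exact ⟨⟨by rw [List.foldl_nil, dv_nil]; exact blw_zero, by simp, by simp, by simp⟩,
        Or.inr (Nat.zero_le _)⟩
    | append_singleton w x ih =>
      rw [List.foldl_append, List.foldl_cons, List.foldl_nil, List.length_append,
        List.length_singleton]
      generalize w.foldl (fun s _ => stepP c u L s) ([], []) = s at ih ⊢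
      obtain ⟨a1, a2⟩ := step_spec hp h ih.1
      refine ⟨a1, ?_⟩
      have fix : augP c u L s = none ∧ newP c u L s = none → stepP c u L s = s := fun e => by
        rw [stepP, e.1, e.2]; rfl
      rcases a2 with a2 | a2
      · left; rwa [fix a2]
      · rcases ih.2 with a3 | a3
        · left; rwa [fix a3]
        · right; omega
  obtain ⟨a1, a2 | a2⟩ := key (mulU (() :: uW u) (() :: u))
  · exact term_spec hp h a1 a2.1 a2.2
  exfalso
  have a3 := a1.short h
  rw [length_mulU, List.length_cons, List.length_cons, pot] at a2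
  have a4 := Nat.mul_le_mul_right (u.length + 1) ((Submodule.finrank_le (LinearMap.range
    (dv (dM δ u) ((mulU (() :: uW u) (() :: u)).foldl (fun s _ => stepP c u L s)
      ([], [])).1))).trans h.w.rank.2.le)
  rw [Nat.succ_mul] at a2
  omega

theorem df_spec (hp : pp c = p) (h : Co δ u.length) (L : List V) :
    dfP c u L = df (SL δ u.length L) := by
  have := h.rank.1
  have a := (run_spec hp h L).df_add
  have e : ∀ K, sp δ (L.flatMap fun b => K.map (mv c u b)) = img (SL δ u.length L) (sp δ K) :=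
    fun K => by
      refine le_antisymm (sp_le.2 fun x hx => ?_) (img_le.2 ?_)
      · obtain ⟨b, hb, hx⟩ := List.mem_flatMap.1 hx
        obtain ⟨y, hy, rfl⟩ := List.mem_map.1 hx
        rw [dv_mv hp h]
        exact mem_img (mem_SL hb) (mem_sp hy)
      · rintro _ ⟨b, hb, rfl⟩ x hx
        refine sp_le (W := Submodule.comap (dv (lin δ u.length) b)
          (sp δ (L.flatMap fun b => K.map (mv c u b)))).2 (fun y hy => ?_) hx
        rw [Submodule.mem_comap, ← dv_mv hp h]
        exact mem_sp (List.mem_flatMap.2 ⟨b, hb, List.mem_map_of_mem hy⟩)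
  rw [dfP, dfQ, rk_eq hp h.dec, rk_eq hp h.dec, e]
  omega

theorem rm_spec (hp : pp c = p) (h : Co δ u.length) (hu : p ^ u.length ≤ c.2.2.length)
    (L : List V) (hpos : 0 < df (SL δ u.length L)) : sp δ (rmP c u L) = Rm (SL δ u.length L) := by
  have := h.rank.1
  have key : ∀ y, (dfP c u (L ++ (ran u).map fun i => mk c u fun x => axpy c u (x.getD i 0) y []) ==
      dfP c u L) = true ↔ dv δ y ∈ Rm (SL δ u.length L) := fun y => by
    rw [beq_iff_eq, df_spec hp h, df_spec hp h]
    refine (mem_rm hpos fun W hW => ?_).symm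
    have a : ∀ i < u.length, ∃ l : X →ₗ[ZMod p] ZMod p, (∀ v, l (δ v) = v i) ∧
        dv (lin δ u.length) (mk c u fun x => axpy c u (x.getD i 0) y []) =
          l.smulRight (dv δ y) := fun i hi => by
      obtain ⟨l, hl⟩ := lam_x h.dec hi
      refine ⟨l, hl, dv_mk hp h _ fun x => ?_⟩
      rw [dv_axpy hp h.dec, dv_nil, add_zero, LinearMap.smulRight_apply, dv, dv, hl]
      rfl
    refine le_antisymm (img_le.2 ?_) (sup_le (img_le.2 ?_) ?_)
    · rintro _ ⟨b, hb, rfl⟩ x hx
      rcases List.mem_append.1 hb with hb | hb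
      · exact Submodule.mem_sup_left (mem_img (mem_SL hb) hx)
      · obtain ⟨i, hi, rfl⟩ := List.mem_map.1 hb
        obtain ⟨l, -, e⟩ := a i (mem_ran.1 hi)
        rw [e]
        exact Submodule.mem_sup_right (Submodule.smul_mem _ _ (Submodule.mem_span_singleton_self _))
    · rintro _ ⟨b, hb, rfl⟩ x hx
      exact mem_img (mem_SL (List.mem_append_left _ hb)) hx
    · obtain ⟨x, hx, h0⟩ := Submodule.exists_mem_ne_zero_of_ne_bot hW
      obtain ⟨v, rfl⟩ := h.surj x
      obtain ⟨i, hi, hv⟩ : ∃ i < u.length, v i ≠ 0 := by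
        by_contra hn
        push Not at hn
        exact h0 ((h.dec v).2 hn)
      obtain ⟨l, hl, e⟩ := a i hi
      have a2 := mem_img (S := SL δ u.length (L ++ (ran u).map fun i =>
        mk c u fun x => axpy c u (x.getD i 0) y []))
        ⟨_, List.mem_append_right _ (List.mem_map_of_mem (mem_ran.2 hi)), rfl⟩ hx
      rw [e, LinearMap.smulRight_apply, hl, Submodule.smul_mem_iff _ hv] at a2
      exact (Submodule.span_singleton_le_iff_mem _ _).2 a2
  refine le_antisymm (sp_le.2 fun y hy => (key y).1 (List.mem_filter.1 hy).2) fun y hy => ?_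
  obtain ⟨x, hx, rfl⟩ := allV_surj hp h.dec h.surj hu y
  exact mem_sp (List.mem_filter.2 ⟨hx, (key x).2 hy⟩)

theorem um_spec (hp : pp c = p) (h : Co δ u.length) (hu : p ^ u.length ≤ c.2.2.length)
    (L : List V) (hpos : 0 < df (SL δ u.length L)) : sp δ (umP c u L) = Um (SL δ u.length L) := by
  have := h.rank.1
  ext x
  rw [umP, mem_preAll hp h.dec h.dec _ (fun b => dv (lin δ u.length) b)
    fun b _ x => dv_mv hp h b x, sp_top hp h, rm_spec hp h hu L hpos, mem_um]
  exact ⟨fun a _ ⟨b, hb, e⟩ => e ▸ a.2 b hb, fun a => ⟨trivial, fun b hb => a _ ⟨b, hb, rfl⟩⟩⟩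

end Pool.Agent.P.MP_f1a348_lc.NC
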