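import Pool.Agent.P.MP_f1a348_lc.NC.Prog
import Pool.Agent.P.MP_f1a348_lc.PG.PT

/-!
The program that finds the largest maximally shrunk subspace runs in polynomial time.
-/

namespace Pool.Agent.P.MP_f1a348_lc.NC

open Pool.Agent.Lib.Helper47 Pool.Agent.P.MP_f1a348_lc.PG
open Pool.Agent.P.MP_f1a348_lc.GI (ps_len)

variable {α : Type} [Enc α] {c : α → Cx} {u : α → U}

@[fun_prop] theorem pt_mv {a x : α → V} (h1 : PT c) (h2 : PT u) (h3 : PT a) (h4 : PT x) :
    PT (fun e => mv (c e) (u e) (a e) (x e)) := by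
  unfold mv; fun_prop

@[fun_prop] theorem pt_mk {f : α → V → V} (h1 : PT c) (h2 : PT u)
    (h3 : PT (fun q : α × V => f q.1 q.2)) : PT (fun e => mk (c e) (u e) (f e)) := by
  unfold mk; fun_prop

@[fun_prop] theorem pt_uD (h2 : PT u) : PT (fun e => uD (u e)) := by
  unfold uD; fun_prop

@[fun_prop] theorem pt_uW (h2 : PT u) : PT (fun e => uW (u e)) := by
  unfold uW; fun_prop

@[fun_prop] theorem pt_uM (h2 : PT u) : PT (fun e => uM (u e)) := by
  unfold uM; fun_prop

@[fun_prop] theorem pt_cp {x : α → V} {j : α → ℕ} (h1 : PT c) (h2 : PT u) (h3 : PT x)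
    (h4 : PT j) : PT (fun e => cp (c e) (u e) (x e) (j e)) := by
  unfold cp; fun_prop

@[fun_prop] theorem pt_tnP {y v : α → V} (h1 : PT c) (h2 : PT u) (h3 : PT y) (h4 : PT v) :
    PT (fun e => tnP (c e) (u e) (y e) (v e)) := by
  unfold tnP; fun_prop

@[fun_prop] theorem pt_pinv {a : α → V} (h1 : PT c) (h2 : PT u) (h3 : PT a) :
    PT (fun e => pinv (c e) (u e) (a e)) := by
  unfold pinv; fun_prop

@[fun_prop] theorem pt_ulP {s : α → St} (h1 : PT c) (h2 : PT u) (h3 : PT s) :
    PT (fun e => ulP (c e) (u e) (s e)) := by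
  unfold ulP; fun_prop

@[fun_prop] theorem pt_tsP {s : α → St} (h1 : PT c) (h2 : PT u) (h3 : PT s) :
    PT (fun e => tsP (c e) (u e) (s e)) := by
  unfold tsP; fun_prop

@[fun_prop] theorem pt_vbP {s : α → St} (h1 : PT c) (h2 : PT u) (h3 : PT s) :
    PT (fun e => vbP (c e) (u e) (s e)) := by
  unfold vbP; fun_prop

@[fun_prop] theorem pt_zP {b v x : α → V} {j : α → ℕ} (h1 : PT c) (h2 : PT u) (h3 : PT b)
    (h4 : PT v) (h5 : PT j) (h6 : PT x) : PT (fun e => zP (c e) (u e) (b e) (v e) (j e) (x e)) := by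
  unfold zP; fun_prop

@[fun_prop] theorem pt_mvsP {L : α → List V} {s : α → St} (h1 : PT c) (h2 : PT u) (h3 : PT L)
    (h4 : PT s) : PT (fun e => mvsP (c e) (u e) (L e) (s e)) := by
  unfold mvsP; fun_prop

@[fun_prop] theorem pt_augP {L : α → List V} {s : α → St} (h1 : PT c) (h2 : PT u) (h3 : PT L)
    (h4 : PT s) : PT (fun e => augP (c e) (u e) (L e) (s e)) := by
  unfold augP; fun_prop

@[fun_prop] theorem pt_candP {L : α → List V} {s : α → St} (h1 : PT c) (h2 : PT u) (h3 : PT L)
    (h4 : PT s) : PT (fun e => candP (c e) (u e) (L e) (s e)) := by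
  unfold candP; fun_prop

@[fun_prop] theorem pt_newP {L : α → List V} {s : α → St} (h1 : PT c) (h2 : PT u) (h3 : PT L)
    (h4 : PT s) : PT (fun e => newP (c e) (u e) (L e) (s e)) := by
  unfold newP; fun_prop

@[fun_prop] theorem pt_stepP {L : α → List V} {s : α → St} (h1 : PT c) (h2 : PT u) (h3 : PT L)
    (h4 : PT s) : PT (fun e => stepP (c e) (u e) (L e) (s e)) := by
  unfold stepP; fun_prop

theorem size_stepP (c : Cx) (u : U) (L : List V) (s : St) : size (stepP c u L s) ≤
    size s + (bv c (uM u) + bv c (uW u) + 4 * (uD u).length + 5) := by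
  unfold stepP
  cases augP c u L s with
  | some q =>
    have := size_tab c (uM u) fun i => 1 * s.1.getD i 0 + q.1.getD i 0
    simp only [Option.elim_some, size_pair, size_nil, axpy]
    omega
  | none =>
    cases e : newP c u L s with
    | none => exact Nat.le_add_right _ _
    | some r =>
      obtain ⟨r0, h0, a2⟩ := List.mem_flatMap.1 (List.mem_of_find?_eq_some e)
      obtain ⟨j, hj, rfl⟩ := List.mem_map.1 a2
      have a1 : size r0.1 ≤ bv c (uM u) ∧ size r0.2 ≤ bv c (uW u) := by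
        rcases List.mem_append.1 h0 with h0 | h0
        · obtain ⟨x, -, rfl⟩ := List.mem_map.1 h0
          exact ⟨Nat.le_add_left _ _, size_tab _ _ _⟩
        · obtain ⟨q, hq, rfl⟩ := List.mem_map.1 h0
          obtain ⟨r, -, hq⟩ := List.mem_flatMap.1 hq
          obtain ⟨b, -, hq⟩ := List.mem_flatMap.1 hq
          obtain ⟨v, -, rfl⟩ := List.mem_map.1 hq
          exact ⟨size_tab _ _ _, size_tab _ _ _⟩
      have a3 := size_nat_le j
      have a4 : j < (uD u).length := by
        obtain ⟨q, hq, rfl⟩ := List.mem_map.1 hj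
        simpa using List.snd_lt_of_mem_zipIdx hq
      rw [Option.elim_none, Option.elim_some, size_pair, size_cons, size_pair, size_pair,
        size_prod s]
      omega

@[fun_prop] theorem pt_runP {L : α → List V} (h1 : PT c) (h2 : PT u) (h3 : PT L) :
    PT (fun e => runP (c e) (u e) (L e)) :=
  PT.foldl_add (f := fun e s _ => stepP (c e) (u e) (L e) s) (by fun_prop) (by fun_prop)
    (by fun_prop) _ ((((ps_bv h1 (pt_uM h2)).add (ps_bv h1 (pt_uW h2))).add
      ((PB.const 4).mul (ps_len (pt_uD h2)))).add (PB.const 5))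
    fun e s _ _ => size_stepP _ _ _ s

@[fun_prop] theorem pt_dfQ {L K : α → List V} (h1 : PT c) (h2 : PT u) (h3 : PT L) (h4 : PT K) :
    PT (fun e => dfQ (c e) (u e) (L e) (K e)) := by
  unfold dfQ; fun_prop

@[fun_prop] theorem pt_dfP {L : α → List V} (h1 : PT c) (h2 : PT u) (h3 : PT L) :
    PT (fun e => dfP (c e) (u e) (L e)) := by
  unfold dfP; fun_prop

@[fun_prop] theorem pt_rmP {L : α → List V} (h1 : PT c) (h2 : PT u) (h3 : PT L) :
    PT (fun e => rmP (c e) (u e) (L e)) := by
  unfold rmP; fun_prop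

@[fun_prop] theorem pt_umP {L : α → List V} (h1 : PT c) (h2 : PT u) (h3 : PT L) :
    PT (fun e => umP (c e) (u e) (L e)) := by
  unfold umP; fun_prop

end Pool.Agent.P.MP_f1a348_lc.NC
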