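import Mathlib

/-!
Maximally shrunk subspaces of a space of linear maps, and augmenting moves in a large blow-up.
-/

namespace Pool.Agent.P.MP_f1a348_lc.NC

open Module

variable {k X Y : Type} [Field k] [AddCommGroup X] [Module k X] [AddCommGroup Y] [Module k Y]

/-- the span of the images of `U` -/
def img (S : Set (X →ₗ[k] Y)) (U : Submodule k X) : Submodule k Y := ⨆ A ∈ S, U.map A

/-- `U` maximises `dim U - dim S U` -/
def IsMx (S : Set (X →ₗ[k] Y)) (U : Submodule k X) : Prop :=
  ∀ U' : Submodule k X, finrank k U' + finrank k (img S U) ≤ finrank k U + finrank k (img S U')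

/-- the largest maximally shrunk subspace -/
def Um (S : Set (X →ₗ[k] Y)) : Submodule k X := sSup {U | IsMx S U}

/-- its image -/
def Rm (S : Set (X →ₗ[k] Y)) : Submodule k Y := img S (Um S)

/-- the defect -/
noncomputable def df (S : Set (X →ₗ[k] Y)) : ℕ := finrank k (Um S) - finrank k (Rm S)

variable {S : Set (X →ₗ[k] Y)}

theorem mem_img {U : Submodule k X} {A : X →ₗ[k] Y} (hA : A ∈ S) {x : X} (hx : x ∈ U) :
    A x ∈ img S U :=
  Submodule.mem_iSup_of_mem A (Submodule.mem_iSup_of_mem hA ⟨x, hx, rfl⟩)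

theorem img_le {U : Submodule k X} {W : Submodule k Y} :
    img S U ≤ W ↔ ∀ A ∈ S, ∀ x ∈ U, A x ∈ W :=
  ⟨fun h _ hA _ hx => h (mem_img hA hx), fun h => iSup₂_le fun A hA => by
    rintro _ ⟨x, hx, rfl⟩; exact h A hA x hx⟩

theorem img_mono {U U' : Submodule k X} (h : U ≤ U') : img S U ≤ img S U' :=
  img_le.2 fun _ hA _ hx => mem_img hA (h hx)

theorem img_sup (U U' : Submodule k X) : img S (U ⊔ U') = img S U ⊔ img S U' := by
  refine le_antisymm (img_le.2 fun A hA x hx => ?_)
    (sup_le (img_mono le_sup_left) (img_mono le_sup_right))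
  obtain ⟨a, ha, b, hb, rfl⟩ := Submodule.mem_sup.1 hx
  rw [map_add]
  exact Submodule.add_mem_sup (mem_img hA ha) (mem_img hA hb)

theorem img_bot : img S ⊥ = ⊥ := le_bot_iff.1 (img_le.2 fun A _ x hx => by
  rw [(Submodule.mem_bot k).1 hx, map_zero]; exact Submodule.zero_mem _)

theorem img_span (U : Submodule k X) :
    img (Submodule.span k S : Set (X →ₗ[k] Y)) U = img S U := by
  refine le_antisymm (img_le.2 fun A hA x hx => ?_)
    (img_le.2 fun A hA x hx => mem_img (Submodule.subset_span hA) hx)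
  induction hA using Submodule.span_induction with
  | mem A hA => exact mem_img hA hx
  | zero => exact Submodule.zero_mem _
  | add A B _ _ hA hB => exact Submodule.add_mem _ hA hB
  | smul c A _ hA => exact Submodule.smul_mem _ c hA

variable [Module.Finite k X] [Module.Finite k Y]

theorem IsMx.sup {U U' : Submodule k X} (h : IsMx S U) (h' : IsMx S U') : IsMx S (U ⊔ U') := by
  intro W
  have a1 := Submodule.finrank_sup_add_finrank_inf_eq U U'
  have a2 := Submodule.finrank_sup_add_finrank_inf_eq (img S U) (img S U')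
  have a3 : finrank k (img S (U ⊓ U')) ≤ finrank k (img S U ⊓ img S U' : Submodule k Y) :=
    Submodule.finrank_mono (le_inf (img_mono inf_le_left) (img_mono inf_le_right))
  have a4 := h W
  have a5 := h' (U ⊓ U')
  rw [img_sup]
  omega

omit [Module.Finite k Y] in
theorem exists_mx (S : Set (X →ₗ[k] Y)) : ∃ U, IsMx S U := by
  obtain ⟨_, ⟨U, rfl⟩, hU⟩ := Int.exists_greatest_of_bdd
    (P := fun z => ∃ U : Submodule k X, z = (finrank k U : ℤ) - finrank k (img S U))
    ⟨finrank k X, by
      rintro _ ⟨U, rfl⟩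
      have := U.finrank_le
      omega⟩ ⟨_, ⊥, rfl⟩
  exact ⟨U, fun W => by have := hU _ ⟨W, rfl⟩; omega⟩

theorem um_mx (S : Set (X →ₗ[k] Y)) : IsMx S (Um S) := by
  obtain ⟨_, ⟨U, hU, rfl⟩, hm⟩ := Int.exists_greatest_of_bdd
    (P := fun z => ∃ U : Submodule k X, IsMx S U ∧ z = (finrank k U : ℤ))
    ⟨finrank k X, by
      rintro _ ⟨U, -, rfl⟩
      have := U.finrank_le
      omega⟩ (by obtain ⟨U, hU⟩ := exists_mx S; exact ⟨_, U, hU, rfl⟩)
  have : Um S = U := le_antisymm (sSup_le fun W hW => by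
    have h1 := hm _ ⟨_, hU.sup hW, rfl⟩
    rw [Submodule.eq_of_le_of_finrank_le (le_sup_left (a := U) (b := W)) (by omega)]
    exact le_sup_right) (le_sSup hU)
  rwa [this]

omit [Module.Finite k X] [Module.Finite k Y] in
theorem IsMx.le_um {U : Submodule k X} (h : IsMx S U) : U ≤ Um S := le_sSup h

theorem IsMx.df_add {U : Submodule k X} (h : IsMx S U) :
    df S + finrank k (img S U) = finrank k U := by
  have a1 := h (Um S)
  have a2 := um_mx S U
  have a3 := um_mx S ⊥
  rw [img_bot, finrank_bot, finrank_bot] at a3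
  unfold df Rm
  omega

theorem le_df (U : Submodule k X) : finrank k U ≤ df S + finrank k (img S U) := by
  have a1 := um_mx S U
  have a2 := (um_mx S).df_add
  omega

theorem isMx_of_df {U : Submodule k X} (h : df S + finrank k (img S U) ≤ finrank k U) :
    IsMx S U := fun W => by have := le_df (S := S) W; omega

/-- the canonical pair is at least as shrunk as any other -/
theorem um_bound (U : Submodule k X) (c : ℕ)
    (h : finrank k X + finrank k (img S U) ≤ finrank k U + c) :
    finrank k X + finrank k (Rm S) ≤ finrank k (Um S) + c := by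
  have := um_mx S U
  unfold Rm
  omega

theorem mem_um {x : X} : x ∈ Um S ↔ ∀ A ∈ S, A x ∈ Rm S := by
  refine ⟨fun h A hA => mem_img hA h, fun h => ?_⟩
  have a : img S (Um S ⊔ Submodule.span k {x}) ≤ Rm S := by
    rw [img_sup]
    refine sup_le le_rfl (img_le.2 fun A hA y hy => ?_)
    obtain ⟨c, rfl⟩ := Submodule.mem_span_singleton.1 hy
    rw [map_smul]
    exact Submodule.smul_mem _ c (h A hA)
  refine IsMx.le_um (U := Um S ⊔ Submodule.span k {x}) (isMx_of_df ?_)
    (Submodule.mem_sup_right (Submodule.mem_span_singleton_self x))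
  have a1 := Submodule.finrank_mono a
  have a2 := (um_mx S).df_add
  have a3 := Submodule.finrank_mono (le_sup_left (a := Um S) (b := Submodule.span k {x}))
  unfold Rm at a1
  omega

/-- membership in the canonical image is read off from two defects -/
theorem mem_rm {S' : Set (X →ₗ[k] Y)} {y : Y} (hpos : 0 < df S)
    (h : ∀ U, U ≠ ⊥ → img S' U = img S U ⊔ Submodule.span k {y}) : y ∈ Rm S ↔ df S' = df S := by
  have ne : ∀ T : Set (X →ₗ[k] Y), 0 < df T → Um T ≠ ⊥ := fun T hT e => by
    have := (um_mx T).df_add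
    rw [e, finrank_bot] at this
    omega
  have le : df S' ≤ df S := by
    by_cases h0 : df S' = 0
    · omega
    have a1 := (um_mx S').df_add
    have a2 := le_df (S := S) (Um S')
    have a3 := Submodule.finrank_mono (le_sup_left (a := img S (Um S')) (b := Submodule.span k {y}))
    rw [h _ (ne _ (by omega))] at a1
    omega
  constructor
  · intro hy
    have a1 := le_df (S := S') (Um S)
    have a2 := (um_mx S).df_add
    rw [h _ (ne _ hpos), sup_eq_left.2
      ((Submodule.span_singleton_le_iff_mem _ (img S (Um S))).2 hy)] at a1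
    omega
  · intro e
    have a1 := (um_mx S').df_add
    have a2 := le_df (S := S) (Um S')
    have a3 := Submodule.finrank_mono (le_sup_left (a := img S (Um S')) (b := Submodule.span k {y}))
    rw [h _ (ne _ (by omega))] at a1
    have a4 : IsMx S (Um S') := isMx_of_df (by omega)
    refine img_mono a4.le_um ?_
    rw [Submodule.eq_of_le_of_finrank_le
      (le_sup_left (a := img S (Um S')) (b := Submodule.span k {y})) (by omega)]
    exact Submodule.mem_sup_right (Submodule.mem_span_singleton_self y)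

section
variable {X' Y' : Type} [AddCommGroup X'] [Module k X'] [AddCommGroup Y'] [Module k Y']
  [Module.Finite k X'] [Module.Finite k Y']

/-- naturality -/
theorem um_map {S' : Set (X' →ₗ[k] Y')} (e : X ≃ₗ[k] X') (f : Y ≃ₗ[k] Y')
    (h : ∀ U, img S' (U.map e.toLinearMap) = (img S U).map f.toLinearMap) :
    Um S' = (Um S).map e.toLinearMap ∧ Rm S' = (Rm S).map f.toLinearMap ∧ df S' = df S := by
  have su : ∀ W : Submodule k X', ∃ U : Submodule k X, U.map e.toLinearMap = W := fun W =>
    ⟨W.comap e.toLinearMap, Submodule.map_comap_eq_of_surjective e.surjective W⟩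
  have key : ∀ U, IsMx S' (U.map e.toLinearMap) ↔ IsMx S U := fun U => by
    refine ⟨fun hU W => ?_, fun hU W => ?_⟩
    · have := hU (W.map e.toLinearMap)
      rwa [h, h, e.finrank_map_eq, e.finrank_map_eq, f.finrank_map_eq, f.finrank_map_eq] at this
    · obtain ⟨W, rfl⟩ := su W
      rw [h, h, e.finrank_map_eq, e.finrank_map_eq, f.finrank_map_eq, f.finrank_map_eq]
      exact hU W
  have a : Um S' = (Um S).map e.toLinearMap := by
    refine le_antisymm ?_ ((key _).2 (um_mx S)).le_um
    obtain ⟨W, hW⟩ := su (Um S')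
    rw [← hW]
    exact Submodule.map_mono ((key W).1 (hW ▸ um_mx S')).le_um
  have b : Rm S' = (Rm S).map f.toLinearMap := by rw [Rm, a, h, Rm]
  exact ⟨a, b, by rw [df, a, b, LinearEquiv.finrank_map_eq, LinearEquiv.finrank_map_eq, df]⟩

end

/-! ### the blow-up -/

variable {D : Type} [Fintype D]

/-- pure tensors -/
def tns : Y →ₗ[k] (D → k) →ₗ[k] (D → Y) :=
  LinearMap.mk₂ k (fun y v i => v i • y) (fun _ _ _ => by funext i; simp)
    (fun _ _ _ => by funext i; simp [smul_smul, mul_comm]) (fun _ _ _ => by funext i; simp [add_smul])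
    (fun _ _ _ => by funext i; simp [smul_smul])

/-- the elementary move -/
def mvN (b : X →ₗ[k] Y) (v : D → k) (j : D) : (D → X) →ₗ[k] (D → Y) :=
  tns.flip v ∘ₗ b ∘ₗ LinearMap.proj j

/-- `T` maps `U ^ D` into `(S U) ^ D` -/
def Blw (S : Set (X →ₗ[k] Y)) (T : (D → X) →ₗ[k] (D → Y)) : Prop :=
  ∀ (U : Submodule k X) (x : D → X), (∀ i, x i ∈ U) → ∀ i, T x i ∈ img S U

structure Rec (S : Set (X →ₗ[k] Y)) (A : (D → X) →ₗ[k] (D → Y)) (P : (D → Y) →ₗ[k] (D → X))
    (J : Set D) (B : (D → X) →ₗ[k] (D → Y)) (x : D → X) : Prop where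
  blw : Blw S B
  kill : ∀ x, (∀ j ∈ J, x j = 0) → B x = 0
  inj : ∀ y, y + B (P y) = 0 → y = 0
  ker : A x + B x = 0

section
omit [Module.Finite k X] [Module.Finite k Y] [Fintype D]

theorem tns_apply (y : Y) (v : D → k) (i : D) : tns (k := k) y v i = v i • y := rfl

theorem mvN_apply (b : X →ₗ[k] Y) (v : D → k) (j : D) (x : D → X) :
    mvN b v j x = tns (k := k) (b (x j)) v := rfl

theorem Blw.add {T T' : (D → X) →ₗ[k] (D → Y)} (h : Blw S T) (h' : Blw S T') : Blw S (T + T') :=
  fun U x hx i => Submodule.add_mem _ (h U x hx i) (h' U x hx i)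

theorem blw_zero : Blw S (0 : (D → X) →ₗ[k] (D → Y)) := fun _ _ _ _ => Submodule.zero_mem _

theorem blw_mvN {b : X →ₗ[k] Y} (hb : b ∈ S) (v : D → k) (j : D) : Blw S (mvN b v j) :=
  fun _ _ hx _ => Submodule.smul_mem _ _ (mem_img hb (hx j))

variable {A B : (D → X) →ₗ[k] (D → Y)} {P : (D → Y) →ₗ[k] (D → X)} {J : Set D} {x : D → X}

theorem rec_zero (h : A x = 0) : Rec S A P J 0 x :=
  ⟨blw_zero, fun _ _ => rfl, fun y hy => by simpa using hy, by simpa using h⟩

theorem Rec.mono {J' : Set D} (h : Rec S A P J B x) (hJ : J ⊆ J') : Rec S A P J' B x :=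
  ⟨h.blw, fun y hy => h.kill y fun j hj => hy j (hJ hj), h.inj, h.ker⟩

theorem Rec.move0 (h : Rec S A P J B x) {j : D} (hj : j ∈ J) (b : X →ₗ[k] Y) {v : D → k}
    (hv : ∀ y, ∀ i ∈ J, P (tns y v) i = 0) :
    (∀ x, (∀ j ∈ J, x j = 0) → (B + mvN b v j) x = 0) ∧
    (∀ y, y + (B + mvN b v j) (P y) = 0 → y = 0) ∧
    A x + (B + mvN b v j) x = tns (b (x j)) v := by
  refine ⟨fun y hy => ?_, fun y hy => ?_, ?_⟩
  · rw [LinearMap.add_apply, h.kill y hy, mvN_apply, hy j hj]; simp
  · rw [LinearMap.add_apply, mvN_apply] at hy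
    have a1 : y + tns (b (P y j)) v = 0 := h.inj _ (by
      rw [map_add, map_add, h.kill _ (hv _), add_zero, ← hy]; abel)
    have a2 : P y j = 0 := by
      rw [eq_neg_of_add_eq_zero_left a1, map_neg, Pi.neg_apply, hv _ j hj, neg_zero]
    rw [a2] at a1
    simpa using a1
  · rw [LinearMap.add_apply, ← add_assoc, h.ker, zero_add, mvN_apply]

theorem Rec.move (h : Rec S A P J B x) (hP : ∀ x, A (P (A x)) = A x) {j : D} (hj : j ∈ J)
    {b : X →ₗ[k] Y} (hb : b ∈ S) {v : D → k} (hv : ∀ y, ∀ i ∈ J, P (tns y v) i = 0)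
    (hz : tns (b (x j)) v ∈ LinearMap.range A) :
    Rec S A P J (B + mvN b v j) (x - P (tns (b (x j)) v)) := by
  obtain ⟨a1, a2, a3⟩ := h.move0 hj b hv
  obtain ⟨w, hw⟩ := hz
  refine ⟨h.blw.add (blw_mvN hb v j), a1, a2, ?_⟩
  rw [map_sub, map_sub, a1 _ (hv _), sub_zero, ← hw, hP, hw, ← a3]
  abel

end

variable {A B : (D → X) →ₗ[k] (D → Y)} {P : (D → Y) →ₗ[k] (D → X)} {J : Set D} {x : D → X}

omit [Module.Finite k X] in
theorem Rec.aug (h : Rec S A P J B x) (hP : ∀ x, A (P (A x)) = A x) {j : D} (hj : j ∈ J)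
    (b : X →ₗ[k] Y) {v : D → k} (hv : ∀ y, ∀ i ∈ J, P (tns y v) i = 0)
    (hz : tns (b (x j)) v ∉ LinearMap.range A) :
    finrank k (LinearMap.range A) < finrank k (LinearMap.range (A + (B + mvN b v j))) := by
  obtain ⟨a1, a2, a3⟩ := h.move0 hj b hv
  let F : (D → Y) →ₗ[k] (D → Y) := LinearMap.id + (B + mvN b v j) ∘ₗ P
  have inj : Function.Injective F := (injective_iff_map_eq_zero F).2 a2
  have lt : LinearMap.range A < LinearMap.range A ⊔ Submodule.span k {tns (b (x j)) v} :=
    lt_of_le_of_ne le_sup_left fun e => hz (by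
      rw [e]; exact Submodule.mem_sup_right (Submodule.mem_span_singleton_self _))
  refine (Submodule.finrank_lt_finrank_of_lt lt).trans_le ?_
  rw [(Submodule.equivMapOfInjective F inj _).finrank_eq]
  refine Submodule.finrank_mono (Submodule.map_le_iff_le_comap.2 (sup_le ?_ ?_))
  · rintro _ ⟨w, rfl⟩
    exact ⟨P (A w), by rw [LinearMap.add_apply, hP]; rfl⟩
  · rw [Submodule.span_singleton_le_iff_mem]
    refine ⟨x, ?_⟩
    show A x + _ = _ + (B + mvN b v j) (P _)
    rw [a3, a1 _ (hv _), add_zero]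
    rfl

omit [Module.Finite k Y] in
theorem finrank_pow (U : Submodule k X) :
    finrank k (Submodule.pi Set.univ fun _ : D => U) = Fintype.card D * finrank k U := by
  have e : (Submodule.pi Set.univ fun _ : D => U) = LinearMap.range (U.subtype.compLeft D) := by
    ext x
    exact ⟨fun h => ⟨fun i => ⟨x i, h i trivial⟩, rfl⟩, by rintro ⟨y, rfl⟩ i -; exact (y i).2⟩
  rw [e, LinearMap.finrank_range_of_inj fun a b hab => funext fun i => Subtype.ext (congrFun hab i),
    finrank_pi_fintype]
  simp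

theorem Blw.rank (h : Blw S A) (U : Submodule k X) :
    finrank k (LinearMap.range A) + Fintype.card D * finrank k U ≤
      Fintype.card D * finrank k X + Fintype.card D * finrank k (img S U) := by
  have a1 := LinearMap.finrank_range_add_finrank_ker A
  have a2 := LinearMap.finrank_range_add_finrank_ker
    (A.domRestrict (Submodule.pi Set.univ fun _ : D => U))
  have a3 : finrank k (LinearMap.range (A.domRestrict (Submodule.pi Set.univ fun _ : D => U))) ≤
      finrank k (Submodule.pi Set.univ fun _ : D => img S U) :=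
    Submodule.finrank_mono (by rintro _ ⟨y, rfl⟩ i -; exact h U y (fun j => y.2 j trivial) i)
  have a4 : finrank k (LinearMap.ker (A.domRestrict (Submodule.pi Set.univ fun _ : D => U))) ≤
      finrank k (LinearMap.ker A) := by
    rw [← Submodule.finrank_map_subtype_eq]
    exact Submodule.finrank_mono (by rintro _ ⟨y, hy, rfl⟩; exact hy)
  rw [finrank_pow] at a2 a3
  rw [finrank_pi_fintype, Finset.sum_const, Finset.card_univ, smul_eq_mul] at a1
  omega

theorem terminal (h : Blw S A) (hP : ∀ x, A (P (A x)) = A x) (U : Submodule k X)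
    (V : Submodule k (D → k)) (c : ℕ) (hc : Fintype.card D ≤ finrank k V + c)
    (hd : finrank k Y * c < Fintype.card D) (hker : ∀ x, A x = 0 → ∀ i, x i ∈ U)
    (hW : ∀ w ∈ img S U, ∀ v ∈ V, tns w v ∈ LinearMap.range A ∧ ∀ i, P (tns w v) i ∈ U) :
    IsMx S U := by
  intro U0
  let b := Module.finBasis k V
  let Φ : (Fin (finrank k V) → img S U) →ₗ[k] (D → Y) :=
    ∑ t, tns.flip (b t : D → k) ∘ₗ (img S U).subtype ∘ₗ LinearMap.proj t
  have hΦ : ∀ f, Φ f = ∑ t, tns (f t : Y) (b t : D → k) := fun f => by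
    simp only [Φ, LinearMap.sum_apply]; rfl
  have inj : Function.Injective Φ := (injective_iff_map_eq_zero Φ).2 fun f hf => by
    funext t
    refine Subtype.ext ((forall_dual_apply_eq_zero_iff k _).1 fun φ => ?_)
    refine Fintype.linearIndependent_iff.1 b.linearIndependent (fun t => φ (f t)) ?_ t
    ext i
    have := congrArg φ (congrFun ((hΦ f).symm.trans hf) i)
    simpa [tns_apply, mul_comm] using this
  have r1 : finrank k (LinearMap.range Φ) = finrank k V * finrank k (img S U) := by
    rw [LinearMap.finrank_range_of_inj inj, finrank_pi_fintype]; simp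
  have l1 : LinearMap.range Φ ≤ LinearMap.range A := by
    rintro _ ⟨f, rfl⟩
    rw [hΦ]
    exact Submodule.sum_mem _ fun t _ => (hW _ (f t).2 _ (b t).2).1
  have l2 : (LinearMap.range Φ).comap A ≤ Submodule.pi Set.univ fun _ : D => U := by
    rintro y ⟨f, hf⟩ i -
    have a1 := hker (y - P (A y)) (by rw [map_sub, hP, sub_self]) i
    have a2 : P (A y) i ∈ U := by
      rw [← hf, hΦ, map_sum, Finset.sum_apply]
      exact Submodule.sum_mem _ fun t _ => (hW _ (f t).2 _ (b t).2).2 i
    simpa using U.add_mem a1 a2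
  have a1 := LinearMap.finrank_range_add_finrank_ker A
  have a2 := LinearMap.finrank_range_add_finrank_ker (A.domRestrict ((LinearMap.range Φ).comap A))
  rw [LinearMap.range_domRestrict, Submodule.map_comap_eq_self l1, r1] at a2
  have a3 : finrank k (LinearMap.ker A) ≤
      finrank k (LinearMap.ker (A.domRestrict ((LinearMap.range Φ).comap A))) := by
    rw [← Submodule.finrank_map_subtype_eq]
    refine Submodule.finrank_mono fun y hy => ⟨⟨y, ?_⟩, hy, rfl⟩
    rw [Submodule.mem_comap, (LinearMap.mem_ker.1 hy)]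
    exact Submodule.zero_mem _
  have a4 := Submodule.finrank_mono l2
  rw [finrank_pow] at a4
  rw [finrank_pi_fintype, Finset.sum_const, Finset.card_univ, smul_eq_mul] at a1
  have a5 := h.rank U0
  have a6 := Nat.mul_le_mul_right (finrank k (img S U)) hc
  have a7 := Nat.mul_le_mul_right c (img S U).finrank_le
  refine Nat.le_of_lt_succ (Nat.lt_of_mul_lt_mul_left (a := Fintype.card D) ?_)
  rw [Nat.add_mul, Nat.mul_comm c] at a6
  rw [Nat.mul_succ, Nat.mul_add, Nat.mul_add]
  omega

omit [Module.Finite k Y] in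
theorem exists_pinv (A : X →ₗ[k] Y) : ∃ P : Y →ₗ[k] X, ∀ x, A (P (A x)) = A x := by
  obtain ⟨g, hg⟩ := A.rangeRestrict.exists_rightInverse_of_surjective A.range_rangeRestrict
  obtain ⟨P, hP⟩ := g.exists_extend
  refine ⟨P, fun x => ?_⟩
  have a1 := LinearMap.congr_fun hP ⟨A x, x, rfl⟩
  have a2 := congrArg Subtype.val (LinearMap.congr_fun hg ⟨A x, x, rfl⟩)
  exact (congrArg A a1).trans a2

theorem finrank_inf_list {T : Type} (L : List T) (F : T → X →ₗ[k] Y) :
    finrank k X ≤ finrank k (⨅ t ∈ L, LinearMap.ker (F t) : Submodule k X) +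
      L.length * finrank k Y := by
  induction L with
  | nil =>
    have e : (⨅ s ∈ ([] : List T), LinearMap.ker (F s) : Submodule k X) = ⊤ := by simp
    rw [e, finrank_top]
    omega
  | cons t L ih =>
    have e : (⨅ s ∈ t :: L, LinearMap.ker (F s) : Submodule k X) =
        LinearMap.ker (F t) ⊓ ⨅ s ∈ L, LinearMap.ker (F s) := by
      simp only [List.mem_cons, iInf_or, iInf_inf_eq, iInf_iInf_eq_left]
    have a1 := Submodule.finrank_sup_add_finrank_inf_eq (LinearMap.ker (F t))
      (⨅ s ∈ L, LinearMap.ker (F s))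
    have a2 := LinearMap.finrank_range_add_finrank_ker (F t)
    have a3 := (LinearMap.range (F t)).finrank_le
    have a4 := (LinearMap.ker (F t) ⊔ ⨅ s ∈ L, LinearMap.ker (F s)).finrank_le
    rw [e, List.length_cons, Nat.succ_mul]
    omega

end Pool.Agent.P.MP_f1a348_lc.NC
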